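import Pool.Agent.H68.GHY.Targets

/-!
The approximate functional equation (board ghy, row AFE).
-/

set_option autoImplicit false

namespace Pool.Agent.H35.GHY

open MeasureTheory Pool.Agent.H34.GM Pool.Agent.H34.GZ Pool.Agent.H34.GU Pool.Agent.H34.GA
open Pool.Agent.H68.GHY

theorem JK_nonneg_AFE (m : ℕ) (k : ℝ → ℂ) (lam : ℕ → ℂ) (X t : ℝ) : 0 ≤ JK m k lam X t :=
  integral_nonneg fun _ => mul_nonneg (norm_nonneg _) (norm_nonneg _)

theorem pf_AFE : T_AFD → T_AFU → T_AFS → Pool.Agent.H68.GHY.T_AFE := by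
  intro hAFD hAFU hAFS w k hw m r0 ε hm hr0 hε
  obtain ⟨CD, hCD0, hCD⟩ := hAFD w k hw m r0 hm hr0
  obtain ⟨KU, CU, hCU0, hCU⟩ := hAFU w k hw m ε hm hε
  have h3r0 : (0 : ℝ) < 3 * r0 := by linarith
  refine ⟨max KU (m * (m + 2) + 1), CD * (1 + 1 / (2 * ε)) + CU + (3 * r0) ^ m + 1, ?_, ?_, ?_⟩
  · exact lt_of_lt_of_le (Nat.lt_succ_self _) (le_max_right _ _)
  · positivity
  intro κ δ ψ ψ' lam M B C1 hκ hδ hδ2 hM hB hC1 hlam hsupp hWc hψ' hψ'b hFE hMel hMel' X t hX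
  set K := max KU (m * (m + 2) + 1) with hK
  set C := CD * (1 + 1 / (2 * ε)) + CU + (3 * r0) ^ m + 1 with hC
  have hκ0 : (0 : ℝ) < κ := by linarith
  set Q := κ / δ with hQ
  have hQ0 : 0 < Q := div_pos hκ0 hδ
  have hQ2 : 2 ≤ Q := by
    rw [hQ, le_div_iff₀ hδ]; linarith
  have hQ1 : 1 ≤ Q := by linarith
  set R := Q ^ (1 / 2 : ℝ) with hR
  have hR1 : 1 ≤ R := Real.one_le_rpow hQ1 (by norm_num)
  have hR0 : 0 < R := by linarith
  have hRR : R * R = Q := by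
    rw [hR, ← Real.rpow_add hQ0]; norm_num
  have hRQ : R ≤ Q := by rw [← hRR]; nlinarith
  have hκδ : κ = Q * δ := by rw [hQ]; field_simp
  -- R' = κ / R
  have hR' : κ / R / δ = R := by
    rw [hκδ, ← hRR]; field_simp
  have hR'δ : δ ≤ κ / R := by
    rw [le_div_iff₀ hR0, hκδ]; nlinarith
  have hδinv : δ⁻¹ ≤ Q := by
    rw [hQ, div_eq_mul_inv]
    exact le_mul_of_one_le_left (by positivity) hκ
  -- powers
  have hRm : R ^ m = Q ^ ((m : ℝ) / 2) := by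
    rw [hR, ← Real.rpow_natCast, ← Real.rpow_mul hQ0.le]
    congr 1; ring
  have hQε1 : 1 ≤ Q ^ ε := Real.one_le_rpow hQ1 hε.le
  have hQadd : Q ^ ((m : ℝ) / 2 + ε) = Q ^ ((m : ℝ) / 2) * Q ^ ε := Real.rpow_add hQ0 _ _
  have hQm0 : 0 < Q ^ ((m : ℝ) / 2) := Real.rpow_pos_of_pos hQ0 _
  have hX1 : Q ^ ((m : ℝ) / 2) * Q ^ ε ≤ X := by
    refine le_trans ?_ hX
    rw [hQadd]
    have h1 : 1 ≤ C := by
      have : 0 ≤ CD * (1 + 1 / (2 * ε)) + CU + (3 * r0) ^ m := by positivity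
      rw [hC]; linarith
    have h2 : 0 ≤ Q ^ ((m : ℝ) / 2) * Q ^ ε := by positivity
    nlinarith
  have hX2 : (3 * r0 * R) ^ m ≤ X := by
    refine le_trans ?_ hX
    rw [hQadd, mul_pow, hRm]
    have h1 : (3 * r0) ^ m ≤ C := by
      have : 0 ≤ CD * (1 + 1 / (2 * ε)) + CU + 1 := by positivity
      rw [hC]; linarith
    have h2 : Q ^ ((m : ℝ) / 2) ≤ Q ^ ((m : ℝ) / 2) * Q ^ ε := by nlinarith
    have h3 : (0 : ℝ) ≤ (3 * r0) ^ m := by positivity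
    calc (3 * r0) ^ m * Q ^ ((m : ℝ) / 2) ≤ C * Q ^ ((m : ℝ) / 2) :=
          mul_le_mul_of_nonneg_right h1 hQm0.le
      _ ≤ C * (Q ^ ((m : ℝ) / 2) * Q ^ ε) :=
          mul_le_mul_of_nonneg_left h2 (le_trans h3 h1)
  have hJ := JK_nonneg_AFE m k lam X t
  -- the first half
  have hH1 := hCD ψ lam B hWc.cont hsupp hB hMel R X hR1 hX2 t
  have hlog : 1 + Real.log R ≤ (1 + 1 / (2 * ε)) * Q ^ ε := by
    have h1 : Real.log R = 1 / 2 * Real.log Q := by rw [hR, Real.log_rpow hQ0]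
    have h2 : Real.log Q ≤ Q ^ ε / ε := Real.log_le_rpow_div hQ0.le hε
    have h3 : 1 / 2 * (Q ^ ε / ε) = 1 / (2 * ε) * Q ^ ε := by field_simp
    rw [h1]
    nlinarith
  have hH1' : ‖HW m w R ψ lam t‖ ≤ CD * (1 + 1 / (2 * ε)) * Q ^ ε * (B * JK m k lam X t) := by
    refine le_trans hH1 ?_
    have h1 : 0 ≤ B * JK m k lam X t := mul_nonneg hB hJ
    have h2 : CD * (1 + Real.log R) ≤ CD * ((1 + 1 / (2 * ε)) * Q ^ ε) :=
      mul_le_mul_of_nonneg_left hlog hCD0.le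
    calc CD * (1 + Real.log R) * B * JK m k lam X t
        = CD * (1 + Real.log R) * (B * JK m k lam X t) := by ring
      _ ≤ CD * ((1 + 1 / (2 * ε)) * Q ^ ε) * (B * JK m k lam X t) :=
          mul_le_mul_of_nonneg_right h2 h1
      _ = _ := by ring
  -- the second half
  have hψU : ∀ r : ℝ, 0 < r → ‖ψ' r‖ ≤ M * min 1 ((r / δ) ^ KU) := by
    intro r hr
    refine le_trans (hψ'b r hr) (mul_le_mul_of_nonneg_left ?_ hM)
    have hx : 0 < r / δ := div_pos hr hδ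
    rcases le_total (r / δ) 1 with h | h
    · exact min_le_min le_rfl (pow_le_pow_of_le_one hx.le h (le_max_left _ _))
    · exact le_trans (min_le_left _ _) (le_min le_rfl (one_le_pow₀ h))
  have hH2 := hCU ψ' lam M B C1 δ hδ hδ2 hM hB hC1 hψ' hψU hlam hMel' (κ / R) Q X hR'δ hQ2
    hδinv (by rw [hR']; exact hRQ) (by rw [hR', hRm]; exact hX1) t
  -- splitting
  have hδK : 1 ≤ δ⁻¹ ^ K := one_le_pow₀ (by
    rw [one_le_inv₀ hδ]; linarith)
  have hψS : ∀ r : ℝ, 0 < r → ‖ψ' r‖ ≤ M * δ⁻¹ ^ K * min 1 (r ^ K) := by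
    intro r hr
    refine le_trans (hψ'b r hr) ?_
    rw [mul_assoc]
    refine mul_le_mul_of_nonneg_left ?_ hM
    rw [mul_min_of_nonneg _ _ (by positivity), mul_one]
    refine min_le_min hδK (le_of_eq ?_)
    rw [div_eq_mul_inv, mul_pow, mul_comm]
  have hS := hAFS w k hw m K κ lam ψ ψ' C1 (M * δ⁻¹ ^ K) hm hκ0
    (lt_of_lt_of_le (Nat.lt_succ_self _) (le_max_right _ _)) hlam hWc hψ' hψS hFE R hR0 t
  have hMC : 0 ≤ M * C1 := mul_nonneg hM hC1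
  have hBJ : 0 ≤ B * JK m k lam X t := mul_nonneg hB hJ
  have hQε0 : 0 ≤ Q ^ ε := by linarith
  have hCD' : 0 ≤ CD * (1 + 1 / (2 * ε)) := by positivity
  have h3m : (0 : ℝ) ≤ (3 * r0) ^ m := by positivity
  calc ‖LmA m ψ lam (1 / 2 + t * Complex.I)‖
      ≤ ‖HW m w R ψ lam t‖ + ‖HW m w (κ / R) ψ' lam t‖ := hS
    _ ≤ CD * (1 + 1 / (2 * ε)) * Q ^ ε * (B * JK m k lam X t) +
        CU * Q ^ ε * (M * C1 + B * JK m k lam X t) := add_le_add hH1' hH2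
    _ ≤ CD * (1 + 1 / (2 * ε)) * Q ^ ε * (M * C1 + B * JK m k lam X t) +
        CU * Q ^ ε * (M * C1 + B * JK m k lam X t) := by
          gcongr
          linarith
    _ = (CD * (1 + 1 / (2 * ε)) + CU) * (Q ^ ε * (M * C1 + B * JK m k lam X t)) := by ring
    _ ≤ C * (Q ^ ε * (M * C1 + B * JK m k lam X t)) := by
          apply mul_le_mul_of_nonneg_right _ (by positivity)
          rw [hC]; linarith
    _ = C * Q ^ ε * (M * C1 + B * JK m k lam X t) := by ring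

end Pool.Agent.H35.GHY
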