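import Pool.Agent.H68.GHY.Targets
import Mathlib.Analysis.Distribution.SchwartzSpace.Fourier
import Mathlib.Analysis.Calculus.BumpFunction.Normed
import Mathlib.Analysis.Calculus.BumpFunction.InnerProduct

/-!
Windows exist (board ghy, row WIN).
-/

set_option autoImplicit false

namespace Pool.Agent.H35.GHY

open MeasureTheory FourierTransform
open scoped ContDiff SchwartzMap

theorem pf_WIN : Pool.Agent.H68.GHY.T_WIN := by
  let b : ContDiffBump (0 : ℝ) := ⟨1 / 2, 1, by norm_num, by norm_num⟩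
  let w : ℝ → ℝ := b.normed volume
  have hwc : Continuous w := b.continuous_normed
  have hcs : HasCompactSupport (fun u : ℝ => ((w u : ℝ) : ℂ)) :=
    b.hasCompactSupport_normed.comp_left (g := fun x : ℝ => (x : ℂ)) (by simp)
  have hsm : ContDiff ℝ ∞ (fun u : ℝ => ((w u : ℝ) : ℂ)) :=
    Complex.ofRealCLM.contDiff.comp b.contDiff_normed
  let f : 𝓢(ℝ, ℂ) := hcs.toSchwartzMap hsm
  let g : 𝓢(ℝ, ℂ) := 𝓕 f
  have hpi : (2 * Real.pi : ℝ) ≠ 0 := by positivity
  refine ⟨w, fun τ => ((2 * Real.pi : ℝ) : ℂ)⁻¹ * g (τ / (2 * Real.pi)), ?_, ?_, ?_, ?_, ?_, ?_, ?_⟩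
  · exact hwc
  · exact fun u => b.nonneg_normed u
  · intro u hu
    have h1 : u ∈ Function.support (b.normed volume) := hu
    rw [b.support_normed_eq] at h1
    have h2 : dist u 0 < 1 := h1
    rw [Real.dist_eq, sub_zero] at h2
    exact h2.le
  · exact fun u => b.normed_neg u
  · exact b.integral_normed
  · intro u
    have h1 : (f : ℝ → ℂ) u = ((w u : ℝ) : ℂ) := rfl
    have h2 : 𝓕⁻ (g : ℝ → ℂ) u = (f : ℝ → ℂ) u := by
      have h3 : (𝓕⁻ g : 𝓢(ℝ, ℂ)) = f := fourierInv_fourier_eq f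
      rw [← SchwartzMap.fourierInv_coe, h3]
    rw [← h1, ← h2, Real.fourierInv_eq']
    let G : ℝ → ℂ := fun v => ((2 * Real.pi : ℝ) : ℂ)⁻¹ * g v *
      Complex.exp (((2 * Real.pi * (v * u) : ℝ) : ℂ) * Complex.I)
    have h4 : (∫ τ : ℝ, ((2 * Real.pi : ℝ) : ℂ)⁻¹ * g (τ / (2 * Real.pi)) *
        Complex.exp (((τ * u : ℝ) : ℂ) * Complex.I)) =
        ∫ τ : ℝ, G (τ / (2 * Real.pi)) := by
      congr 1
      ext τ
      have h5 : 2 * Real.pi * (τ / (2 * Real.pi) * u) = τ * u := by field_simp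
      simp only [G, h5]
    have h8 := Measure.integral_comp_div G (2 * Real.pi)
    rw [h4, h8, abs_of_pos (by positivity), Complex.real_smul, ← integral_const_mul]
    congr 1
    ext v
    have h6 : inner ℝ v u = v * u := by
      simp [mul_comm]
    simp only [G, h6, smul_eq_mul]
    have h7 : ((2 * Real.pi : ℝ) : ℂ) ≠ 0 := by exact_mod_cast hpi
    field_simp
  · have h1 : Integrable (g : ℝ → ℂ) := g.integrable
    exact (h1.comp_div hpi).const_mul _

end Pool.Agent.H35.GHY
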